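import Pool.Agent.Helper46.CU.Stmts

set_option autoImplicit false

namespace Pool.Agent.Helper46.CU

theorem gap_int (y z a b a' b' : ℤ) (hy : 1 ≤ y) (hyz : y < z) (ha : 2 ≤ a) (hb : 1 ≤ b)
    (ha' : 2 ≤ a') (hbb : b < b') (h : z ^ 2 * (a ^ 3 - 1) = y ^ 2 * (b ^ 3 - 1))
    (h' : z ^ 2 * (a' ^ 3 - 1) = y ^ 2 * (b' ^ 3 - 1)) : a ^ 2 < b' := by
  have hδ : 0 < z ^ 2 - y ^ 2 := by nlinarith
  have ha0 : 0 < a := by linarith
  have ha'0 : 0 < a' := by linarith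
  have hb0 : 0 < b := by linarith
  have hb'p : 0 < b' := by linarith
  have hz : 0 < z ^ 2 := by nlinarith
  have hy2 : 0 < y ^ 2 := by nlinarith
  have hb3 : 0 < b' ^ 3 - b ^ 3 := by
    have e : b' ^ 3 - b ^ 3 = (b' - b) * (b' ^ 2 + b' * b + b ^ 2) := by ring
    rw [e]
    have h1 : 0 < b' - b := by linarith
    have h2 : 0 < b' ^ 2 + b' * b + b ^ 2 := by nlinarith
    positivity
  have key : z ^ 2 * ((a * b') ^ 3 - (a' * b) ^ 3) = (z ^ 2 - y ^ 2) * (b' ^ 3 - b ^ 3) := by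
    have e1 : z ^ 2 * a ^ 3 = y ^ 2 * b ^ 3 + (z ^ 2 - y ^ 2) := by linarith
    have e2 : z ^ 2 * a' ^ 3 = y ^ 2 * b' ^ 3 + (z ^ 2 - y ^ 2) := by linarith
    have e3 : z ^ 2 * ((a * b') ^ 3 - (a' * b) ^ 3) = (z ^ 2 * a ^ 3) * b' ^ 3 -
        (z ^ 2 * a' ^ 3) * b ^ 3 := by ring
    rw [e3, e1, e2]
    ring
  obtain ⟨X, hX⟩ : ∃ X, X = a * b' := ⟨_, rfl⟩
  obtain ⟨Z, hZ⟩ : ∃ Z, Z = a' * b := ⟨_, rfl⟩
  rw [← hX, ← hZ] at key
  have hX0 : 0 < X := by rw [hX]; positivity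
  have hZ0 : 0 < Z := by rw [hZ]; positivity
  have hXZ : Z < X := by
    by_contra hcon
    push Not at hcon
    have h1 : X ^ 3 ≤ Z ^ 3 := pow_le_pow_left₀ hX0.le hcon 3
    have h2 : z ^ 2 * (X ^ 3 - Z ^ 3) ≤ 0 := by nlinarith
    have h3 : 0 < (z ^ 2 - y ^ 2) * (b' ^ 3 - b ^ 3) := mul_pos hδ hb3
    linarith
  have h4 : X ^ 2 ≤ X ^ 3 - Z ^ 3 := by
    have e : X ^ 3 - Z ^ 3 = (X - Z) * (X ^ 2 + X * Z + Z ^ 2) := by ring
    have h5 : 1 ≤ X - Z := by linarith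
    have h6 : 0 < X ^ 2 + X * Z + Z ^ 2 := by positivity
    have h7 : 0 < X * Z := mul_pos hX0 hZ0
    nlinarith
  have h8 : z ^ 2 * X ^ 2 ≤ (z ^ 2 - y ^ 2) * (b' ^ 3 - b ^ 3) := by
    rw [← key]
    exact mul_le_mul_of_nonneg_left h4 hz.le
  have hb'3 : 0 < b ^ 3 := by positivity
  have h9 : (z ^ 2 - y ^ 2) * (b' ^ 3 - b ^ 3) < z ^ 2 * b' ^ 3 := by nlinarith
  have h10 : z ^ 2 * X ^ 2 < z ^ 2 * b' ^ 3 := lt_of_le_of_lt h8 h9
  have h11 : X ^ 2 < b' ^ 3 := lt_of_mul_lt_mul_left h10 hz.le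
  rw [hX] at h11
  have hb'0 : 0 < b' ^ 2 := by positivity
  have h12 : b' ^ 2 * a ^ 2 < b' ^ 2 * b' := by nlinarith
  exact lt_of_mul_lt_mul_left h12 hb'0.le

theorem st_GAP : ST_GAP := by
  intro y z a b a' b' hy hyz ha ha' hbb h h'
  have h1 : 1 ≤ b := by
    by_contra hcon
    have hb : b = 0 := by omega
    subst hb
    have e : 8 ≤ a ^ 3 := by
      calc 8 = 2 ^ 3 := by norm_num
        _ ≤ a ^ 3 := Nat.pow_le_pow_left ha 3
    have hz0 : 0 < z := by omega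
    have e2 : 0 < z ^ 2 * (a ^ 3 - 1) := Nat.mul_pos (by positivity) (by omega)
    rw [h] at e2
    simp at e2
  have hc : ∀ n : ℕ, 1 ≤ n → ((n ^ 3 - 1 : ℕ) : ℤ) = (n : ℤ) ^ 3 - 1 := by
    intro n hn
    rw [Nat.cast_sub (Nat.one_le_pow 3 n hn)]
    push_cast
    rfl
  have h2 := gap_int y z a b a' b' (by exact_mod_cast hy) (by exact_mod_cast hyz)
    (by exact_mod_cast ha) (by exact_mod_cast h1) (by exact_mod_cast ha') (by exact_mod_cast hbb)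
    (by rw [← hc a (by omega), ← hc b h1]; exact_mod_cast h)
    (by rw [← hc a' (by omega), ← hc b' (by omega)]; exact_mod_cast h')
  exact_mod_cast h2

end Pool.Agent.Helper46.CU
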